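import Pool.Agent.H94.LP3.M27
import Pool.Agent.H94.LP3.M29

/-!
# Nef classes with at most eight large multiplicities
-/

namespace Pool.Agent.H18.Nef

open Finset Pool.Agent.H18.Cub Pool.Agent.H18.Pr Pool.Agent.H18.Fat Pool.Agent.H18.Ub

variable {n : ℕ}

/-- Nef classes. -/
def NefC (d : ℕ) (m : Fin n → ℕ) : Prop :=
  ∀ (e : ℕ) (k : Fin n → ℕ), 1 ≤ generalDim 2 e k → ∑ i, m i * k i ≤ d * e

theorem NefC.one {d : ℕ} {m : Fin n → ℕ} (h : NefC d m) (i : Fin n) : m i ≤ d := by
  have h1 := h 1 (fun x => if x = i then 1 else 0) (by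
    have h2 := generalDim_ge (r := 2) (by norm_num) 1 (fun x : Fin n => if x = i then 1 else 0)
    have h3 : ∑ x : Fin n, (((if x = i then 1 else 0) + 2 - 1 : ℕ).choose 2 : ℤ) = 1 := by
      have h4 : ∀ x : Fin n, (((if x = i then 1 else 0) + 2 - 1 : ℕ).choose 2 : ℤ) =
          if x = i then 1 else 0 := by
        intro x
        by_cases hx : x = i
        · rw [if_pos hx, if_pos hx]
          norm_num
        · rw [if_neg hx, if_neg hx]
          norm_num
      rw [sum_congr rfl fun x _ => h4 x]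
      simp
    rw [h3] at h2
    norm_num at h2
    omega)
  simpa using h1

theorem NefC.two {d : ℕ} {m : Fin n → ℕ} (h : NefC d m) {i j : Fin n} (hij : i ≠ j) :
    m i + m j ≤ d := by
  have h1 := h 1 (fun x => (if x = i then 1 else 0) + if x = j then 1 else 0) (by
    have h2 := generalDim_ge (r := 2) (by norm_num) 1
      (fun x : Fin n => (if x = i then 1 else 0) + if x = j then 1 else 0)
    have h3 : ∑ x : Fin n, (((if x = i then 1 else 0) + (if x = j then 1 else 0) + 2 - 1 :
        ℕ).choose 2 : ℤ) = 2 := by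
      have h4 : ∀ x : Fin n, (((if x = i then 1 else 0) + (if x = j then 1 else 0) + 2 - 1 :
          ℕ).choose 2 : ℤ) = (if x = i then 1 else 0) + if x = j then 1 else 0 := by
        intro x
        by_cases hi : x = i
        · subst hi
          rw [if_pos rfl, if_neg hij, if_pos rfl, if_neg hij]
          norm_num
        · by_cases hj : x = j
          · subst hj
            rw [if_neg hi, if_pos rfl, if_neg hi, if_pos rfl]
            norm_num
          · rw [if_neg hi, if_neg hj, if_neg hi, if_neg hj]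
            norm_num
      rw [sum_congr rfl fun x _ => h4 x, sum_add_distrib]
      simp
    rw [h3] at h2
    norm_num at h2
    omega)
  have h5 : ∑ x, m x * ((if x = i then 1 else 0) + if x = j then 1 else 0) = m i + m j := by
    have h6 : ∀ x, m x * ((if x = i then 1 else 0) + if x = j then 1 else 0) =
        (if x = i then m x else 0) + (if x = j then m x else 0) := by
      intro x
      split_ifs <;> ring
    rw [sum_congr rfl fun x _ => h6 x, sum_add_distrib]
    simp
  rw [h5] at h1
  omega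

/-- The Cremona image of an effective class. -/
theorem effective_crm {e : ℕ} {k : Fin n → ℕ} (hdim : 1 ≤ generalDim 2 e k) {a b c : Fin n}
    (hab : a ≠ b) (hac : a ≠ c) (hbc : b ≠ c) :
    ∃ s', k a + k b + k c + s' = 2 * e ∧
      generalDim 2 s' (crm e k a b c s') = generalDim 2 e k := by
  obtain ⟨J3, h0, h1, h2, hJ3⟩ := emb3 hab hac hbc
  have hsum := sum_le_of_effective k hdim J3
  have hs3 : ∑ l, k (J3 l) = k a + k b + k c := by
    rw [Fin.sum_univ_three, h0, h1, h2]
  rw [hs3] at hsum
  refine ⟨2 * e - (k a + k b + k c), by omega, ?_⟩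
  refine generalDim_cremona k _ J3 (fun l => le_of_effective k hdim _) (by rw [hs3]; omega)
    (fun l => ?_) (fun i hi => ?_)
  · refine if_pos ?_
    by_contra hcon
    exact (hJ3 (J3 l)).2 hcon l rfl
  · exact if_neg ((hJ3 i).1 hi)

/-- Nef classes are preserved. -/
theorem NefC.step {d : ℕ} {m : Fin n → ℕ} (h : NefC d m)
    {a b c : Fin n} (hab : a ≠ b) (hac : a ≠ c) (hbc : b ≠ c)
    {s : ℕ} (hμ : m a + m b + m c + s = 2 * d) : NefC s (crm d m a b c s) := by
  intro e k hdim
  obtain ⟨s', h1, h3⟩ := effective_crm hdim hab hac hbc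
  have h4 := h s' (crm e k a b c s') (by rw [h3]; exact hdim)
  have h5 := pairing hab hac hbc hμ h1 (h.two hbc) (h.two hac) (h.two hab)
  have h6 : ((∑ i, m i * crm e k a b c s' i : ℕ) : ℤ) ≤ ((d * s' : ℕ) : ℤ) := by
    exact_mod_cast h4
  push_cast at h6
  have h7 : ((∑ i, crm d m a b c s i * k i : ℕ) : ℤ) ≤ ((s * e : ℕ) : ℤ) := by
    push_cast
    linarith only [h6, h5]
  exact_mod_cast h7

/-- The Cremona images of a line are nef and effective. -/
theorem LineImage.nef {e : ℕ} {k : Fin n → ℕ} (h : LineImage e k) :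
    NefC e k ∧ 1 ≤ generalDim 2 e k := by
  induction h with
  | line =>
    refine ⟨fun e k _ => by simp, ?_⟩
    have h2 := generalDim_ge (r := 2) (by norm_num) 1 (fun _ : Fin n => 0)
    have h3 : ∑ i : Fin n, (((fun _ : Fin n => 0) i + 2 - 1 : ℕ).choose 2 : ℤ) = 0 := by
      simp
    rw [h3] at h2
    norm_num at h2
    omega
  | @step e s k a b c _ hab hac hbc hka hkb hkc hs ih =>
    refine ⟨ih.1.step hab hac hbc hs, ?_⟩
    obtain ⟨s', h1, h2⟩ := effective_crm ih.2 hab hac hbc
    have h3 : s' = s := by omega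
    subst h3
    have h4 : 1 ≤ generalDim 2 s' (crm e k a b c s') := by
      rw [h2]
      exact ih.2
    exact h4

/-- Nef classes of large reduced degree. -/
structure PosE (D : ℕ) (d : ℕ) (m : Fin n → ℕ) : Prop where
  nef : ∀ (e : ℕ) (k : Fin n → ℕ), 1 ≤ generalDim 2 e k → ∑ i, m i * k i ≤ d * e
  big : ∀ (e : ℕ) (k : Fin n → ℕ), LineImage e k → ∑ i, m i * k i + D ≤ d * e

theorem PosE.deg {D : ℕ} {d : ℕ} {m : Fin n → ℕ} (h : PosE D d m) : D ≤ d := by
  have h1 := h.big 1 (fun _ => 0) LineImage.line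
  simpa using h1

theorem PosE.one {D : ℕ} {d : ℕ} {m : Fin n → ℕ} (h : PosE D d m) (i : Fin n) : m i ≤ d :=
  NefC.one h.nef i

theorem PosE.two {D : ℕ} {d : ℕ} {m : Fin n → ℕ} (h : PosE D d m) {i j : Fin n} (hij : i ≠ j) :
    m i + m j ≤ d := NefC.two h.nef hij

/-- One Cremona transformation. -/
theorem PosE.step {D : ℕ} {d : ℕ} {m : Fin n → ℕ} (h : PosE D d m)
    {a b c : Fin n} (hab : a ≠ b) (hac : a ≠ c) (hbc : b ≠ c)
    {s : ℕ} (hμ : m a + m b + m c + s = 2 * d) :
    PosE D s (crm d m a b c s) := by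
  refine ⟨NefC.step h.nef hab hac hbc hμ, fun e k hk => ?_⟩
  have hn := hk.nef
  obtain ⟨s', h1, _⟩ := effective_crm hn.2 hab hac hbc
  have h4 := h.big s' (crm e k a b c s')
    (LineImage.step hk hab hac hbc (hn.1.two hbc) (hn.1.two hac) (hn.1.two hab) h1)
  have h5 := pairing hab hac hbc hμ h1 (h.two hbc) (h.two hac) (h.two hab)
  have h6 : ((∑ i, m i * crm e k a b c s' i + D : ℕ) : ℤ) ≤ ((d * s' : ℕ) : ℤ) := by
    exact_mod_cast h4
  push_cast at h6
  have h7 : ((∑ i, crm d m a b c s i * k i + D : ℕ) : ℤ) ≤ ((s * e : ℕ) : ℤ) := by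
    push_cast
    linarith only [h6, h5]
  exact_mod_cast h7

/-- Reduction to standard form. -/
theorem PosE.reduce {D : ℕ} {J : Finset (Fin n)} {M : ℕ} : ∀ (d : ℕ) (m : Fin n → ℕ),
    PosE D d m → (∀ i, i ∉ J → m i ≤ M) →
    ∃ (d' : ℕ) (m' : Fin n → ℕ), Cremona 2 d m d' m' ∧ PosE D d' m' ∧
      (∀ i, i ∉ J → m' i ≤ M) ∧ (∀ S : Finset (Fin n), S.card ≤ 3 → ∑ i ∈ S, m' i ≤ d') ∧
      virt d' m' = virt d m := by
  intro d
  induction d using Nat.strong_induction_on with
  | _ d ih =>
    intro m h hM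
    by_cases hstd : ∀ S : Finset (Fin n), S.card ≤ 3 → ∑ i ∈ S, m i ≤ d
    · exact ⟨d, m, Cremona.refl d m, h, hM, hstd, rfl⟩
    · push Not at hstd
      obtain ⟨S, hS3, hlt⟩ := hstd
      have hcard : S.card = 3 := by
        by_contra hne
        have h012 : S.card = 0 ∨ S.card = 1 ∨ S.card = 2 := by omega
        rcases h012 with h0 | h1 | h2
        · rw [card_eq_zero] at h0
          rw [h0, sum_empty] at hlt
          omega
        · obtain ⟨x, rfl⟩ := card_eq_one.1 h1
          rw [sum_singleton] at hlt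
          have := h.one x
          omega
        · obtain ⟨x, y, hxy, rfl⟩ := card_eq_two.1 h2
          rw [sum_pair hxy] at hlt
          have := h.two hxy
          omega
      obtain ⟨a, b, c, hab, hac, hbc, rfl⟩ := card_eq_three.1 hcard
      have hma := h.two hbc
      have hmb := h.two hac
      have hmc := h.two hab
      have hsum : ∑ i ∈ ({a, b, c} : Finset (Fin n)), m i = m a + m b + m c := by
        rw [sum_insert (by simp [hab, hac]), sum_insert (by simp [hbc]), sum_singleton,
          add_assoc]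
      rw [hsum] at hlt
      set s := 2 * d - (m a + m b + m c) with hs
      have hμ : m a + m b + m c + s = 2 * d := by omega
      obtain ⟨d', m', h1, h2, h3, h4, h5⟩ := ih s (by omega) (crm d m a b c s)
        (h.step hab hac hbc hμ) (fun i hi => by
          have h7 := hM i hi
          show (if i = a ∨ i = b ∨ i = c then s + m i - d else m i) ≤ M
          split_ifs
          · omega
          · exact h7)
      refine ⟨d', m', ?_, h2, h3, h4, h5.trans (virt_crm hab hac hbc hμ hma hmb hmc)⟩
      obtain ⟨J3, e0, e1, e2, hJ3⟩ := emb3 hab hac hbc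
      refine Cremona.step J3 (fun l => ?_) ?_ (fun l => ?_) (fun i hi => ?_) h1
      · have h6 : ∀ x, (x = a ∨ x = b ∨ x = c) → m x ≤ d := by
          rintro x (rfl | rfl | rfl) <;> omega
        apply h6
        by_contra hcon
        exact (hJ3 (J3 l)).2 hcon l rfl
      · rw [Fin.sum_univ_three, e0, e1, e2]
        omega
      · refine if_pos ?_
        by_contra hcon
        exact (hJ3 (J3 l)).2 hcon l rfl
      · exact if_neg ((hJ3 i).1 hi)

end Pool.Agent.H18.Nef
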